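import Pool.Agent.K3h2.HL.Norm
import Pool.Agent.R343.LT2
import Pool.Agent.TH419.HX.Hall

set_option autoImplicit false
set_option linter.unusedSectionVars false

/-!
# Hall's inequality when the abscissa has a dominating smooth term and compressible further digits
-/

namespace Pool.Agent.K3h2.HL

open Finset Pool.Agent.R343.LP Pool.Agent.R343.LI Pool.Agent.R343.LT Pool.Agent.TH419.WI

/-- the data: the integers `x`, `y`, the denominator `c`, the dominating term `h u`, the further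
terms `g i * w i` and the lengths of the words with values `w i` -/
structure Dt (r : ℕ) where
  x : ℤ
  y : ℤ
  c : ℤ
  h : ℤ
  u : ℕ
  g : Fin r → ℕ
  N : Fin r → ℕ
  w : Fin r → ℤ

/-- the conditions on the data -/
structure Ok {r : ℕ} (p q H : ℕ) (S : Finset ℕ) (b : Fin r → ℕ) (B : ℤ) (η : ℝ) (P : Dt r) :
    Prop where
  ne : P.y ^ q ≠ P.x ^ p
  c1 : 1 ≤ P.c
  cH : P.c ≤ H
  h0 : P.h ≠ 0
  hH : |P.h| ≤ H
  su : Smooth S P.u
  sg : ∀ i, Smooth S (P.g i)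
  wB : ∀ i, |P.w i| ≤ B * (b i : ℤ) ^ P.N i
  dom : ∀ i, (P.g i : ℝ) * (b i : ℝ) ^ P.N i ≤ (P.u : ℝ) ^ (1 - η)
  eq : P.c * P.x = P.h * P.u + ∑ i, (P.g i : ℤ) * P.w i

lemma tail_le {r p q H : ℕ} {S : Finset ℕ} {b : Fin r → ℕ} {B : ℤ} (hB : 0 ≤ B) {η : ℝ}
    {P : Dt r} (h : Ok p q H S b B η P) :
    |((P.c * P.x - P.h * P.u : ℤ) : ℝ)| ≤ r * B * (P.u : ℝ) ^ (1 - η) := by
  have h1 : P.c * P.x - P.h * P.u = ∑ i, (P.g i : ℤ) * P.w i := by rw [h.eq]; ring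
  rw [h1]
  push_cast
  refine (Finset.abs_sum_le_sum_abs _ _).trans ?_
  have h2 : ∀ i ∈ (Finset.univ : Finset (Fin r)),
      |(P.g i : ℝ) * (P.w i : ℝ)| ≤ B * (P.u : ℝ) ^ (1 - η) := by
    intro i _
    rw [abs_mul, Nat.abs_cast]
    have h3 : |(P.w i : ℝ)| ≤ B * (b i : ℝ) ^ P.N i := by
      have h4 : ((|P.w i| : ℤ) : ℝ) ≤ ((B * (b i : ℤ) ^ P.N i : ℤ) : ℝ) := by
        exact_mod_cast h.wB i
      push_cast at h4
      exact h4
    have hB0 : (0 : ℝ) ≤ B := by exact_mod_cast hB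
    calc (P.g i : ℝ) * |(P.w i : ℝ)| ≤ P.g i * (B * (b i : ℝ) ^ P.N i) :=
          mul_le_mul_of_nonneg_left h3 (Nat.cast_nonneg _)
      _ = B * (P.g i * (b i : ℝ) ^ P.N i) := by ring
      _ ≤ _ := mul_le_mul_of_nonneg_left (h.dom i) hB0
  refine (Finset.sum_le_card_nsmul _ _ _ h2).trans ?_
  rw [Finset.card_univ, Fintype.card_fin, nsmul_eq_mul, mul_assoc]

/-- small `u`: everything is bounded -/
lemma small {p q : ℕ} (X0 : ℝ) (θ : ℝ) (hθ1 : θ ≤ 1) {X Y Δ : ℝ} (hX : 0 ≤ X)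
    (hY : 0 ≤ Y) (hXX : X ≤ X0) (hΔ1 : 1 ≤ Δ) (hΔ : Y ^ q - X ^ p ≤ Δ)
    (hZ1 : 1 ≤ max (X ^ p) (Y ^ q)) :
    (max (X ^ p) (Y ^ q)) ^ θ ≤ max 2 (2 * X0 ^ p) * Δ := by
  have h1 : (max (X ^ p) (Y ^ q)) ^ θ ≤ max (X ^ p) (Y ^ q) := by
    calc (max (X ^ p) (Y ^ q)) ^ θ ≤ (max (X ^ p) (Y ^ q)) ^ (1 : ℝ) :=
          Real.rpow_le_rpow_of_exponent_le hZ1 hθ1
      _ = _ := Real.rpow_one _
  refine h1.trans ?_
  have hXp : X ^ p ≤ X0 ^ p := pow_le_pow_left₀ hX hXX p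
  have hXp0 : 0 ≤ X ^ p := by positivity
  have hYq0 : 0 ≤ Y ^ q := by positivity
  rcases le_or_gt (2 * X ^ p) (Y ^ q) with h2 | h2
  · have h3 : max (X ^ p) (Y ^ q) ≤ 2 * Δ := by
      refine max_le ?_ ?_
      · nlinarith
      · linarith
    refine h3.trans ?_
    exact mul_le_mul_of_nonneg_right (le_max_left _ _) (by linarith)
  · have h3 : max (X ^ p) (Y ^ q) ≤ 2 * X0 ^ p := by
      refine max_le ?_ ?_
      · linarith
      · linarith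
    calc max (X ^ p) (Y ^ q) ≤ 2 * X0 ^ p := h3
      _ ≤ max 2 (2 * X0 ^ p) := le_max_right _ _
      _ = max 2 (2 * X0 ^ p) * 1 := (mul_one _).symm
      _ ≤ _ := mul_le_mul_of_nonneg_left hΔ1 (le_trans (by norm_num) (le_max_left _ _))

theorem step {p q H : ℕ} (hp : 1 ≤ p) (hq : 1 ≤ q) {S : Finset ℕ} (hS : ∀ p ∈ S, p.Prime) {r : ℕ}
    {b : Fin r → ℕ} (hb : ∀ i, 2 ≤ b i) (hbS : ∀ i, Smooth S (b i)) {B : ℤ} (hB : 0 ≤ B)
    {η ε : ℝ} (hη : 0 < η) (hε : 0 < ε) (T : ℕ) :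
    ∃ δ : ℝ, 0 < δ ∧ ∃ C : ℝ, ∀ (P : Dt r) (D : Fin r → ℕ), (∀ i, 0 < D i) →
      (∀ i, Real.log (D i) ≤ δ * (1 + Real.log P.u)) → (∀ i, SpQ (b i) T B (D i * P.w i)) →
      Ok p q H S b B η P →
      (max (|(P.x : ℝ)| ^ p) (|(P.y : ℝ)| ^ q)) ^ (1 - 1 / (p : ℝ) - 1 / (q : ℝ) - ε) ≤
        C * |(P.y : ℝ) ^ q - (P.x : ℝ) ^ p| := by
  classical
  choose c0 hc0 using fun i => norm_sp (hb i) T B hB
  let J := Fin r × Fin (T + 1)
  obtain ⟨n, hn⟩ : ∃ n : ℕ, n = Fintype.card J := ⟨_, rfl⟩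
  let e : Fin n ≃ J := (Fintype.equivFinOfCardEq hn.symm).symm
  obtain ⟨K, hK, hall⟩ := Pool.Agent.TH419.HX.hallX p q n ((H ^ q) ^ p) hp hq S hS (η / 2)
    (ε / 2) (by positivity) (by positivity)
  obtain ⟨R, hR⟩ : ∃ R : ℝ, R = K * q + (p * q : ℕ) := ⟨_, rfl⟩
  have hp0 : (0 : ℝ) < p := by exact_mod_cast hp
  have hq0 : (0 : ℝ) < q := by exact_mod_cast hq
  have hR0 : 0 < R := by rw [hR]; positivity
  have hB0 : (0 : ℝ) ≤ B := by exact_mod_cast hB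
  obtain ⟨A, hA⟩ : ∃ A : ℝ, A = 1 + 2 * r * B +
    ∑ i, (b i : ℝ) ^ (c0 i + 1) * ((B + 1) * Real.exp 1) := ⟨_, rfl⟩
  have hsumA : 0 ≤ ∑ i, (b i : ℝ) ^ (c0 i + 1) * ((B + 1) * Real.exp 1) :=
    Finset.sum_nonneg fun i _ => by positivity
  have hrB : 0 ≤ 2 * (r : ℝ) * B := by positivity
  have hA1 : 1 ≤ A := by rw [hA]; linarith
  have hArB : 2 * (r : ℝ) * B ≤ A := by rw [hA]; linarith
  have hAi : ∀ i, (b i : ℝ) ^ (c0 i + 1) * ((B + 1) * Real.exp 1) ≤ A := by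
    intro i
    have h1 : (b i : ℝ) ^ (c0 i + 1) * ((B + 1) * Real.exp 1) ≤
        ∑ i, (b i : ℝ) ^ (c0 i + 1) * ((B + 1) * Real.exp 1) :=
      Finset.single_le_sum (f := fun i => (b i : ℝ) ^ (c0 i + 1) * ((B + 1) * Real.exp 1))
        (fun i _ => by positivity) (Finset.mem_univ i)
    rw [hA]; linarith
  obtain ⟨X0, hX0⟩ : ∃ X0 : ℝ, X0 = (H + r * B) * A ^ (4 / η) := ⟨_, rfl⟩
  have hX00 : 0 ≤ X0 := by rw [hX0]; positivity
  obtain ⟨B1, hB1⟩ : ∃ B1 : ℝ, B1 = (T + 1) * (B + 1) := ⟨_, rfl⟩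
  have hB11 : 1 ≤ B1 := by
    rw [hB1]
    have : (0 : ℝ) ≤ T := Nat.cast_nonneg T
    nlinarith
  obtain ⟨Cb, hCb⟩ : ∃ Cb : ℝ, Cb = (K * ((H : ℝ) ^ q * B1)) ^ K * (H : ℝ) ^ (p * q) *
    Real.exp (ε / 2 * (1 + Real.log (2 * H))) := ⟨_, rfl⟩
  have hr0 : (0 : ℝ) < r + 1 := by positivity
  obtain ⟨δ, hδ⟩ : ∃ δ : ℝ, δ = min (min (η / 4) 1) (ε / (2 * (r + 1) * R)) := ⟨_, rfl⟩
  have hδ0 : 0 < δ := by
    rw [hδ]
    exact lt_min (lt_min (by positivity) one_pos) (by positivity)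
  have hδη : δ ≤ η / 4 := by rw [hδ]; exact (min_le_left _ _).trans (min_le_left _ _)
  have hδ1 : δ ≤ 1 := by rw [hδ]; exact (min_le_left _ _).trans (min_le_right _ _)
  have hδε : δ ≤ ε / (2 * (r + 1) * R) := by rw [hδ]; exact min_le_right _ _
  refine ⟨δ, hδ0, max (max 2 (2 * X0 ^ p)) Cb, ?_⟩
  intro P D hD0 hDlog hsp hok
  have hZ1 := one_le_max hp hq hok.ne
  have hΔ1 : (1 : ℝ) ≤ |(P.y : ℝ) ^ q - (P.x : ℝ) ^ p| := by
    have h1 : (1 : ℤ) ≤ |P.y ^ q - P.x ^ p| := Int.one_le_abs (sub_ne_zero.2 hok.ne)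
    have h2 : ((1 : ℤ) : ℝ) ≤ ((|P.y ^ q - P.x ^ p| : ℤ) : ℝ) := by exact_mod_cast h1
    push_cast at h2
    exact h2
  obtain ⟨θ, hθ⟩ : ∃ θ : ℝ, θ = 1 - 1 / (p : ℝ) - 1 / (q : ℝ) - ε := ⟨_, rfl⟩
  rw [← hθ]
  rcases le_or_gt θ 0 with hθ0 | hθ0
  · calc (max (|(P.x : ℝ)| ^ p) (|(P.y : ℝ)| ^ q)) ^ θ ≤ 1 :=
          Real.rpow_le_one_of_one_le_of_nonpos hZ1 hθ0
      _ ≤ 2 * |(P.y : ℝ) ^ q - (P.x : ℝ) ^ p| := by linarith
      _ ≤ _ := mul_le_mul_of_nonneg_right ((le_max_left _ _).trans (le_max_left _ _))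
          (abs_nonneg _)
  have hθ1 : θ ≤ 1 := by
    rw [hθ]
    have : 0 < 1 / (p : ℝ) := by positivity
    have : 0 < 1 / (q : ℝ) := by positivity
    linarith
  have hu0 : 0 < P.u := Nat.pos_of_ne_zero hok.su.1
  have hu1 : (1 : ℝ) ≤ P.u := by exact_mod_cast hu0
  have hupos : (0 : ℝ) < P.u := by linarith
  have hlu : 0 ≤ Real.log P.u := Real.log_nonneg hu1
  have hc1 : (1 : ℝ) ≤ P.c := by exact_mod_cast hok.c1
  have hcH : (P.c : ℝ) ≤ H := by exact_mod_cast hok.cH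
  have hH1 : (1 : ℝ) ≤ H := hc1.trans hcH
  have hh1 : (1 : ℝ) ≤ |(P.h : ℝ)| := by
    have : 1 ≤ |P.h| := Int.one_le_abs hok.h0
    exact_mod_cast this
  have hhH : |(P.h : ℝ)| ≤ H := by
    have h1 : ((|P.h| : ℤ) : ℝ) ≤ ((H : ℤ) : ℝ) := by exact_mod_cast hok.hH
    push_cast at h1
    exact h1
  have htail := tail_le hB hok
  push_cast at htail
  have hcx : |(P.x : ℝ)| ≤ |(P.c : ℝ) * P.x| := by
    rw [abs_mul, abs_of_nonneg (by linarith : (0 : ℝ) ≤ P.c)]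
    have : 0 ≤ |(P.x : ℝ)| := abs_nonneg _
    nlinarith
  have hu1η : (P.u : ℝ) ^ (1 - η) ≤ P.u := by
    calc (P.u : ℝ) ^ (1 - η) ≤ (P.u : ℝ) ^ (1 : ℝ) :=
          Real.rpow_le_rpow_of_exponent_le hu1 (by linarith)
      _ = _ := Real.rpow_one _
  rcases lt_or_ge ((P.u : ℝ) ^ (η / 4)) A with hsmall | hlarge
  · have h1 : (P.u : ℝ) ≤ A ^ (4 / η) := by
      calc (P.u : ℝ) = ((P.u : ℝ) ^ (η / 4)) ^ (4 / η) := by
            rw [← Real.rpow_mul hupos.le]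
            have : η / 4 * (4 / η) = 1 := by field_simp
            rw [this, Real.rpow_one]
        _ ≤ _ := Real.rpow_le_rpow (by positivity) hsmall.le (by positivity)
    have h2 : |(P.x : ℝ)| ≤ X0 := by
      have h3 : |(P.c : ℝ) * P.x| ≤ |(P.c : ℝ) * P.x - P.h * P.u| + |(P.h : ℝ) * P.u| := by
        have := abs_add_le ((P.c : ℝ) * P.x - P.h * P.u) ((P.h : ℝ) * P.u)
        rwa [sub_add_cancel] at this
      have h4 : |(P.h : ℝ) * P.u| ≤ H * P.u := by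
        rw [abs_mul, Nat.abs_cast]
        exact mul_le_mul_of_nonneg_right hhH hupos.le
      have h5 : (r : ℝ) * B * (P.u : ℝ) ^ (1 - η) ≤ r * B * P.u :=
        mul_le_mul_of_nonneg_left hu1η (by positivity)
      calc |(P.x : ℝ)| ≤ |(P.c : ℝ) * P.x| := hcx
        _ ≤ (H + r * B) * P.u := by linarith
        _ ≤ X0 := by
            rw [hX0]
            exact mul_le_mul_of_nonneg_left h1 (by positivity)
    have h3 : |(P.y : ℝ)| ^ q - |(P.x : ℝ)| ^ p ≤ |(P.y : ℝ) ^ q - (P.x : ℝ) ^ p| := by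
      rw [← abs_pow, ← abs_pow]
      exact abs_sub_abs_le_abs_sub _ _
    refine (small X0 θ hθ1 (abs_nonneg _) (abs_nonneg _) h2 hΔ1 h3 hZ1).trans ?_
    exact mul_le_mul_of_nonneg_right (le_max_left _ _) (abs_nonneg _)
  -- large `u`
  obtain ⟨Z, hZ⟩ : ∃ Z : ℝ, Z = max (|(P.x : ℝ)| ^ p) (|(P.y : ℝ)| ^ q) := ⟨_, rfl⟩
  obtain ⟨Δ, hΔ⟩ : ∃ Δ : ℝ, Δ = |(P.y : ℝ) ^ q - (P.x : ℝ) ^ p| := ⟨_, rfl⟩
  have hZ1' : 1 ≤ Z := by rw [hZ]; exact hZ1
  have hZ0 : 0 < Z := by linarith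
  have hlZ : 0 ≤ Real.log Z := Real.log_nonneg hZ1'
  have hΔ1' : 1 ≤ Δ := by rw [hΔ]; exact hΔ1
  -- comparison of `u` and `Z`
  have huZ : Real.log P.u ≤ Real.log (2 * H) + Real.log Z := by
    have h1 : (r : ℝ) * B * (P.u : ℝ) ^ (1 - η) ≤ P.u / 2 := by
      have h2 : A ≤ (P.u : ℝ) ^ η := by
        refine hlarge.trans (Real.rpow_le_rpow_of_exponent_le hu1 (by linarith))
      have h3 : (P.u : ℝ) ^ η * (P.u : ℝ) ^ (1 - η) = P.u := by
        rw [← Real.rpow_add hupos]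
        have : η + (1 - η) = 1 := by ring
        rw [this, Real.rpow_one]
      have h4 : 0 ≤ (P.u : ℝ) ^ (1 - η) := by positivity
      have h5 : 2 * (r : ℝ) * B * (P.u : ℝ) ^ (1 - η) ≤ (P.u : ℝ) ^ η * (P.u : ℝ) ^ (1 - η) :=
        mul_le_mul_of_nonneg_right (hArB.trans h2) h4
      rw [h3] at h5
      linarith
    have h2 : (P.u : ℝ) / 2 ≤ |(P.c : ℝ) * P.x| := by
      have h3 : |(P.h : ℝ) * P.u| ≤ |(P.c : ℝ) * P.x - P.h * P.u| + |(P.c : ℝ) * P.x| := by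
        have := abs_sub_abs_le_abs_sub ((P.h : ℝ) * P.u) ((P.c : ℝ) * P.x)
        rw [abs_sub_comm] at this
        linarith
      have h4 : (P.u : ℝ) ≤ |(P.h : ℝ) * P.u| := by
        rw [abs_mul, Nat.abs_cast]
        nlinarith
      linarith
    have h3 : |(P.c : ℝ) * P.x| ≤ H * |(P.x : ℝ)| := by
      rw [abs_mul, abs_of_nonneg (by linarith : (0 : ℝ) ≤ P.c)]
      exact mul_le_mul_of_nonneg_right hcH (abs_nonneg _)
    have hx0 : P.x ≠ 0 := by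
      intro h0
      rw [h0, Int.cast_zero, mul_zero, abs_zero] at h2
      linarith
    have hx1 : (1 : ℝ) ≤ |(P.x : ℝ)| := by
      have : 1 ≤ |P.x| := Int.one_le_abs hx0
      exact_mod_cast this
    have h4 : |(P.x : ℝ)| ≤ Z := by
      rw [hZ]
      refine le_trans ?_ (le_max_left _ _)
      exact le_self_pow₀ hx1 (by omega)
    have h5 : (P.u : ℝ) ≤ 2 * H * Z := by nlinarith
    have h6 := Real.log_le_log hupos h5
    rwa [Real.log_mul (by positivity) hZ0.ne'] at h6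
  -- the sizes of the denominators
  have hDu : ∀ i, (D i : ℝ) ≤ Real.exp 1 * (P.u : ℝ) ^ (η / 4) := by
    intro i
    have hDpos : (0 : ℝ) < D i := by exact_mod_cast hD0 i
    have h1 : Real.log (D i) ≤ 1 + η / 4 * Real.log P.u := by
      refine (hDlog i).trans ?_
      nlinarith
    calc (D i : ℝ) = Real.exp (Real.log (D i)) := (Real.exp_log hDpos).symm
      _ ≤ Real.exp (1 + η / 4 * Real.log P.u) := Real.exp_le_exp.2 h1
      _ = Real.exp 1 * (P.u : ℝ) ^ (η / 4) := by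
          rw [Real.exp_add, Real.rpow_def_of_pos hupos]
          congr 2
          ring
  obtain ⟨Bn, hBn⟩ : ∃ Bn : ℕ, (Bn : ℤ) = B := ⟨B.toNat, Int.toNat_of_nonneg hB⟩
  have hBnR : (Bn : ℝ) = B := by exact_mod_cast hBn
  obtain ⟨t, ht⟩ : ∃ t : Fin r → ℕ, t = fun i => Nat.log (b i) (D i * Bn + 1) + 1 := ⟨_, rfl⟩
  have ht1 : ∀ i, D i * Bn ≤ b i ^ t i := by
    intro i
    have h1 := Nat.lt_pow_succ_log_self (b := b i) (by have := hb i; omega) (D i * Bn + 1)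
    rw [ht]
    exact (Nat.le_succ _).trans h1.le
  have ht2 : ∀ i, b i ^ t i ≤ (D i * Bn + 1) * b i := by
    intro i
    have h1 := Nat.pow_log_le_self (b i) (x := D i * Bn + 1) (by omega)
    rw [ht]
    show b i ^ (Nat.log (b i) (D i * Bn + 1) + 1) ≤ _
    rw [pow_succ]
    exact Nat.mul_le_mul_right _ h1
  have hw : ∀ i, |(D i : ℤ) * P.w i| ≤ (b i : ℤ) ^ (P.N i + t i) := by
    intro i
    rw [abs_mul, Nat.abs_cast]
    have h1 : ((D i * Bn : ℕ) : ℤ) ≤ ((b i ^ t i : ℕ) : ℤ) := by exact_mod_cast ht1 i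
    push_cast at h1
    rw [hBn] at h1
    calc (D i : ℤ) * |P.w i| ≤ D i * (B * (b i : ℤ) ^ P.N i) :=
          mul_le_mul_of_nonneg_left (hok.wB i) (Int.natCast_nonneg _)
      _ = (D i * B) * (b i : ℤ) ^ P.N i := by ring
      _ ≤ (b i : ℤ) ^ t i * (b i : ℤ) ^ P.N i := mul_le_mul_of_nonneg_right h1 (by positivity)
      _ = _ := by rw [pow_add]; ring
  choose l v hv hl hlv using fun i => hc0 i (D i * P.w i) (P.N i + t i) (hsp i) (hw i)
  let uJ : J → ℕ := fun s => P.g s.1 * b s.1 ^ l s.1 s.2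
  have huJ : ∀ s, (uJ s : ℝ) ≤ (P.u : ℝ) ^ (1 - η / 2) := by
    rintro ⟨i, j⟩
    have hb1 : (1 : ℝ) ≤ b i := by
      have : 1 ≤ b i := by have := hb i; omega
      exact_mod_cast this
    have h1 : (b i : ℝ) ^ t i ≤ (D i * B + 1) * b i := by
      have : ((b i ^ t i : ℕ) : ℝ) ≤ (((D i * Bn + 1) * b i : ℕ) : ℝ) := by exact_mod_cast ht2 i
      push_cast at this
      rwa [hBnR] at this
    have hgN : 0 ≤ (P.g i : ℝ) * (b i : ℝ) ^ P.N i := by positivity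
    have hue : (1 : ℝ) ≤ Real.exp 1 * (P.u : ℝ) ^ (η / 4) := by
      have h2 : (1 : ℝ) ≤ Real.exp 1 := Real.one_le_exp (by norm_num)
      have h3 : (1 : ℝ) ≤ (P.u : ℝ) ^ (η / 4) := Real.one_le_rpow hu1 (by positivity)
      nlinarith
    have h2 : (D i * B + 1 : ℝ) ≤ (Real.exp 1 * (P.u : ℝ) ^ (η / 4)) * (B + 1) := by
      have h3 := hDu i
      nlinarith
    have h3 : (b i : ℝ) ^ (t i + c0 i) ≤ A * (P.u : ℝ) ^ (η / 4) := by
      calc (b i : ℝ) ^ (t i + c0 i) = (b i : ℝ) ^ t i * (b i : ℝ) ^ c0 i := pow_add _ _ _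
        _ ≤ ((D i * B + 1) * b i) * (b i : ℝ) ^ c0 i :=
            mul_le_mul_of_nonneg_right h1 (by positivity)
        _ ≤ (((Real.exp 1 * (P.u : ℝ) ^ (η / 4)) * (B + 1)) * b i) * (b i : ℝ) ^ c0 i := by
            refine mul_le_mul_of_nonneg_right ?_ (by positivity)
            exact mul_le_mul_of_nonneg_right h2 (by positivity)
        _ = ((b i : ℝ) ^ (c0 i + 1) * ((B + 1) * Real.exp 1)) * (P.u : ℝ) ^ (η / 4) := by
            rw [pow_succ]; ring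
        _ ≤ _ := mul_le_mul_of_nonneg_right (hAi i) (by positivity)
    calc ((uJ (i, j) : ℕ) : ℝ) = (P.g i : ℝ) * (b i : ℝ) ^ l i j := by
          show ((P.g i * b i ^ l i j : ℕ) : ℝ) = _
          push_cast
          rfl
      _ ≤ (P.g i : ℝ) * (b i : ℝ) ^ (P.N i + t i + c0 i) :=
          mul_le_mul_of_nonneg_left (pow_le_pow_right₀ hb1 (hl i j)) (Nat.cast_nonneg _)
      _ = ((P.g i : ℝ) * (b i : ℝ) ^ P.N i) * (b i : ℝ) ^ (t i + c0 i) := by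
          rw [add_assoc, pow_add]; ring
      _ ≤ (P.u : ℝ) ^ (1 - η) * (A * (P.u : ℝ) ^ (η / 4)) :=
          mul_le_mul (hok.dom i) h3 (by positivity) (by positivity)
      _ ≤ (P.u : ℝ) ^ (1 - η) * ((P.u : ℝ) ^ (η / 4) * (P.u : ℝ) ^ (η / 4)) := by
          refine mul_le_mul_of_nonneg_left ?_ (by positivity)
          exact mul_le_mul_of_nonneg_right hlarge (by positivity)
      _ = (P.u : ℝ) ^ (1 - η / 2) := by
          rw [← Real.rpow_add hupos, ← Real.rpow_add hupos]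
          congr 1
          ring
  have huJS : ∀ s, Smooth S (uJ s) := fun s => Pool.Agent.TH419.HX.smooth_mul (hok.sg _) (Pool.Agent.TH419.HX.smooth_pow (hbS _) _)
  -- the common denominator
  obtain ⟨DD, hDD⟩ : ∃ DD : ℕ, DD = ∏ s, D s := ⟨_, rfl⟩
  have hDD0 : 0 < DD := by
    rw [hDD]
    exact Finset.prod_pos fun s _ => hD0 s
  let Q : Fin r → ℕ := fun s => ∏ s' ∈ Finset.univ.erase s, D s'
  have hQ : ∀ s, Q s * D s = DD := fun s => by
    rw [hDD]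
    exact Finset.prod_erase_mul _ _ (Finset.mem_univ s)
  have hQle : ∀ s, Q s ≤ DD := fun s => by
    rw [← hQ s]
    exact Nat.le_mul_of_pos_right _ (hD0 s)
  have hDDlog : Real.log DD ≤ r * (δ * (1 + Real.log P.u)) := by
    rw [hDD]
    push_cast
    rw [Real.log_prod (fun s _ => by exact_mod_cast (hD0 s).ne')]
    refine (Finset.sum_le_sum fun s _ => hDlog s).trans ?_
    rw [Finset.sum_const, Finset.card_univ, nsmul_eq_mul, Fintype.card_fin]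
  have hDDlog2 : R * Real.log DD ≤ ε / 2 * (1 + Real.log (2 * H) + Real.log Z) := by
    calc R * Real.log DD ≤ R * (r * (δ * (1 + Real.log P.u))) :=
          mul_le_mul_of_nonneg_left hDDlog hR0.le
      _ ≤ R * (r * (ε / (2 * (r + 1) * R) * (1 + Real.log P.u))) := by
          refine mul_le_mul_of_nonneg_left ?_ hR0.le
          refine mul_le_mul_of_nonneg_left ?_ (Nat.cast_nonneg _)
          exact mul_le_mul_of_nonneg_right hδε (by linarith)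
      _ = (r / (r + 1)) * (ε / 2 * (1 + Real.log P.u)) := by field_simp
      _ ≤ 1 * (ε / 2 * (1 + Real.log P.u)) := by
          refine mul_le_mul_of_nonneg_right ?_ (by positivity)
          rw [div_le_one hr0]
          linarith
      _ ≤ _ := by
          rw [one_mul]
          exact mul_le_mul_of_nonneg_left (by linarith) (by positivity)
  have hDD1 : (1 : ℝ) ≤ DD := by exact_mod_cast hDD0
  have hDDpos : (0 : ℝ) < DD := by linarith
  -- the integers to which the theorem is applied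
  let a' : Fin (n + 1) → ℤ := Fin.cons (P.c ^ (q - 1) * (DD : ℤ) ^ q * P.h)
    (fun j => P.c ^ (q - 1) * (DD : ℤ) ^ (q - 1) * Q (e j).1 * v (e j).1 (e j).2)
  let u' : Fin (n + 1) → ℕ := Fin.cons P.u (fun j => uJ (e j))
  obtain ⟨MM, hMM⟩ : ∃ MM : ℝ, MM = (DD : ℝ) ^ q * ((H : ℝ) ^ q * B1) := ⟨_, rfl⟩
  have hHq : (1 : ℝ) ≤ (H : ℝ) ^ q := one_le_pow₀ hH1
  have hHB : (1 : ℝ) ≤ (H : ℝ) ^ q * B1 := one_le_mul_of_one_le_of_one_le hHq hB11
  have hDDq : (1 : ℝ) ≤ (DD : ℝ) ^ q := one_le_pow₀ hDD1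
  have hMM1 : 1 ≤ MM := by
    rw [hMM]
    exact one_le_mul_of_one_le_of_one_le hDDq hHB
  have hcabs : |(P.c : ℝ)| = P.c := abs_of_nonneg (by linarith)
  have ha'0 : |((a' 0 : ℤ) : ℝ)| ≤ MM := by
    have h1 : a' 0 = P.c ^ (q - 1) * (DD : ℤ) ^ q * P.h := by
      show (Fin.cons _ _ : Fin (n + 1) → ℤ) 0 = _
      rw [Fin.cons_zero]
    rw [h1]
    push_cast
    rw [abs_mul, abs_mul, abs_pow, abs_pow, hcabs, Nat.abs_cast, hMM]
    have h2 : (P.c : ℝ) ^ (q - 1) ≤ (H : ℝ) ^ (q - 1) := pow_le_pow_left₀ (by linarith) hcH _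
    calc (P.c : ℝ) ^ (q - 1) * (DD : ℝ) ^ q * |(P.h : ℝ)|
        ≤ (H : ℝ) ^ (q - 1) * (DD : ℝ) ^ q * H := by
          refine mul_le_mul ?_ hhH (abs_nonneg _) (by positivity)
          exact mul_le_mul_of_nonneg_right h2 (by positivity)
      _ = (DD : ℝ) ^ q * ((H : ℝ) ^ (q - 1) * H * 1) := by ring
      _ = (DD : ℝ) ^ q * ((H : ℝ) ^ q * 1) := by
          rw [← pow_succ, Nat.sub_add_cancel hq]
      _ ≤ _ := by
          refine mul_le_mul_of_nonneg_left ?_ (by positivity)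
          exact mul_le_mul_of_nonneg_left hB11 (by positivity)
  have ha'j : ∀ j : Fin n, |((a' j.succ : ℤ) : ℝ)| ≤ MM := by
    intro j
    have h1 : a' j.succ = P.c ^ (q - 1) * (DD : ℤ) ^ (q - 1) * Q (e j).1 * v (e j).1 (e j).2 := by
      show (Fin.cons _ _ : Fin (n + 1) → ℤ) j.succ = _
      rw [Fin.cons_succ]
    have h5 : |(v (e j).1 (e j).2 : ℝ)| ≤ B1 := by
      have h6 : ((|v (e j).1 (e j).2| : ℤ) : ℝ) ≤ (((T + 1) * (B + 1) : ℤ) : ℝ) := by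
        exact_mod_cast hv (e j).1 (e j).2
      push_cast at h6
      rw [hB1]
      exact h6
    rw [h1]
    push_cast
    rw [abs_mul, abs_mul, abs_mul, abs_pow, abs_pow, hcabs, Nat.abs_cast, Nat.abs_cast, hMM]
    have h2 : (P.c : ℝ) ^ (q - 1) ≤ (H : ℝ) ^ q :=
      (pow_le_pow_left₀ (by linarith) hcH _).trans (pow_le_pow_right₀ hH1 (Nat.sub_le _ _))
    have h3 : ((Q (e j).1 : ℕ) : ℝ) ≤ DD := by exact_mod_cast hQle _
    calc (P.c : ℝ) ^ (q - 1) * (DD : ℝ) ^ (q - 1) * (Q (e j).1 : ℝ) * |(v (e j).1 (e j).2 : ℝ)|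
        ≤ (H : ℝ) ^ q * (DD : ℝ) ^ (q - 1) * DD * B1 := by
          refine mul_le_mul ?_ h5 (abs_nonneg _) (by positivity)
          refine mul_le_mul ?_ h3 (Nat.cast_nonneg _) (by positivity)
          exact mul_le_mul_of_nonneg_right h2 (by positivity)
      _ = ((DD : ℝ) ^ (q - 1) * DD) * ((H : ℝ) ^ q * B1) := by ring
      _ = _ := by rw [← pow_succ, Nat.sub_add_cancel hq]
  have ha' : ∀ i, |((a' i : ℤ) : ℝ)| ≤ MM := fun i => Fin.cases ha'0 ha'j i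
  have hDDZ : (DD : ℤ) ≠ 0 := by exact_mod_cast hDD0.ne'
  have hcZ : P.c ≠ 0 := by have := hok.c1; omega
  have ha'ne : a' 0 ≠ 0 := by
    show (Fin.cons _ _ : Fin (n + 1) → ℤ) 0 ≠ 0
    rw [Fin.cons_zero]
    exact mul_ne_zero (mul_ne_zero (pow_ne_zero _ hcZ) (pow_ne_zero _ hDDZ)) hok.h0
  have hu'S : ∀ i, Smooth S (u' i) := by
    intro i
    refine Fin.cases ?_ (fun j => ?_) i
    · show Smooth S ((Fin.cons _ _ : Fin (n + 1) → ℕ) 0)
      rw [Fin.cons_zero]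
      exact hok.su
    · show Smooth S ((Fin.cons _ _ : Fin (n + 1) → ℕ) j.succ)
      rw [Fin.cons_succ]
      exact huJS _
  have hu'0 : u' 0 = P.u := by
    show (Fin.cons _ _ : Fin (n + 1) → ℕ) 0 = _
    rw [Fin.cons_zero]
  have hu'dom : ∀ i, i ≠ 0 → (u' i : ℝ) ≤ (u' 0 : ℝ) ^ (1 - η / 2) := by
    intro i hi
    obtain ⟨j, rfl⟩ := Fin.exists_succ_eq.2 hi
    rw [hu'0]
    show (((Fin.cons _ _ : Fin (n + 1) → ℕ) j.succ : ℕ) : ℝ) ≤ _
    rw [Fin.cons_succ]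
    exact huJ _
  have hef : a' 0 ^ p = (P.c ^ (q - 1) * P.h) ^ p * ((DD : ℤ) ^ p) ^ q := by
    show ((Fin.cons _ _ : Fin (n + 1) → ℤ) 0) ^ p = _
    rw [Fin.cons_zero]
    have : P.c ^ (q - 1) * (DD : ℤ) ^ q * P.h = (P.c ^ (q - 1) * P.h) * (DD : ℤ) ^ q := by ring
    rw [this, mul_pow, ← pow_mul, ← pow_mul, mul_comm q p]
  have heH : |(P.c ^ (q - 1) * P.h) ^ p| ≤ (((H ^ q) ^ p : ℕ) : ℤ) := by
    rw [abs_pow, abs_mul, abs_pow]
    push_cast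
    refine pow_le_pow_left₀ (by positivity) ?_ p
    have h1 : |P.c| = P.c := abs_of_nonneg (by have := hok.c1; omega)
    rw [h1]
    have h2 : P.c ^ (q - 1) ≤ (H : ℤ) ^ (q - 1) :=
      pow_le_pow_left₀ (by have := hok.c1; omega) hok.cH _
    calc P.c ^ (q - 1) * |P.h| ≤ (H : ℤ) ^ (q - 1) * H :=
          mul_le_mul h2 hok.hH (abs_nonneg _) (by positivity)
      _ = (H : ℤ) ^ q := by rw [← pow_succ, Nat.sub_add_cancel hq]
  have hsum : ∀ i, ∑ j, v i j * (b i : ℤ) ^ l i j = D i * P.w i := fun i => (hlv i).symm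
  have hxx : (P.c * DD) ^ q * P.x = ∑ i, a' i * (u' i : ℤ) := by
    rw [Fin.sum_univ_succ]
    have e0 : a' 0 * (u' 0 : ℤ) = P.c ^ (q - 1) * (DD : ℤ) ^ q * (P.h * P.u) := by
      rw [hu'0]
      show ((Fin.cons _ _ : Fin (n + 1) → ℤ) 0) * _ = _
      rw [Fin.cons_zero]
      ring
    have e1 : ∑ j : Fin n, a' j.succ * (u' j.succ : ℤ) =
        ∑ s : J, (P.c ^ (q - 1) * (DD : ℤ) ^ (q - 1) * Q s.1 * v s.1 s.2) * (uJ s : ℤ) := by
      rw [← Equiv.sum_comp e (fun s : J => (P.c ^ (q - 1) * (DD : ℤ) ^ (q - 1) * Q s.1 *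
        v s.1 s.2) * (uJ s : ℤ))]
      refine Finset.sum_congr rfl fun j _ => ?_
      show ((Fin.cons _ _ : Fin (n + 1) → ℤ) j.succ) * (((Fin.cons _ _ : Fin (n + 1) → ℕ)
        j.succ : ℕ) : ℤ) = _
      rw [Fin.cons_succ, Fin.cons_succ]
    have e2 : ∑ s : J, (P.c ^ (q - 1) * (DD : ℤ) ^ (q - 1) * Q s.1 * v s.1 s.2) * (uJ s : ℤ) =
        P.c ^ (q - 1) * (DD : ℤ) ^ q * ∑ i, (P.g i : ℤ) * P.w i := by
      rw [Fintype.sum_prod_type, Finset.mul_sum]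
      refine Finset.sum_congr rfl fun i _ => ?_
      have e3 : ∀ j : Fin (T + 1), (P.c ^ (q - 1) * (DD : ℤ) ^ (q - 1) * Q (i, j).1 *
          v (i, j).1 (i, j).2) * (uJ (i, j) : ℤ) = (P.c ^ (q - 1) * (DD : ℤ) ^ (q - 1) * Q i *
            P.g i) * (v i j * (b i : ℤ) ^ l i j) := by
        intro j
        show (P.c ^ (q - 1) * (DD : ℤ) ^ (q - 1) * Q i * v i j) *
          ((P.g i * b i ^ l i j : ℕ) : ℤ) = _
        push_cast
        ring
      simp_rw [e3]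
      rw [← Finset.mul_sum, hsum i]
      have h2 : (Q i : ℤ) * D i = DD := by exact_mod_cast hQ i
      have h3 : (DD : ℤ) ^ q = (DD : ℤ) ^ (q - 1) * DD := by
        rw [← pow_succ, Nat.sub_add_cancel hq]
      rw [h3]
      calc P.c ^ (q - 1) * (DD : ℤ) ^ (q - 1) * Q i * P.g i * (D i * P.w i)
          = P.c ^ (q - 1) * (DD : ℤ) ^ (q - 1) * (Q i * D i) * (P.g i * P.w i) := by ring
        _ = _ := by rw [h2]; ring
    rw [e0, e1, e2, ← mul_add, ← hok.eq]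
    have h3 : P.c ^ q = P.c ^ (q - 1) * P.c := by
      rw [← pow_succ, Nat.sub_add_cancel hq]
    rw [mul_pow, h3]
    ring
  have hpow : ∀ x y : ℤ, ((P.c * DD) ^ p * y) ^ q - ((P.c * DD) ^ q * x) ^ p =
      (P.c * DD) ^ (p * q) * (y ^ q - x ^ p) := by
    intro x y
    have hgen : ∀ m : ℤ, (m ^ p * y) ^ q - (m ^ q * x) ^ p = m ^ (p * q) * (y ^ q - x ^ p) := by
      intro m
      rw [mul_pow, mul_pow, ← pow_mul, ← pow_mul, mul_comm q p]
      ring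
    exact hgen _
  have hne' : ((P.c * DD) ^ p * P.y) ^ q ≠ ((P.c * DD) ^ q * P.x) ^ p := by
    intro h1
    have h2 := hpow P.x P.y
    rw [h1, sub_self] at h2
    rcases mul_eq_zero.1 h2.symm with h3 | h3
    · exact pow_ne_zero _ (mul_ne_zero hcZ hDDZ) h3
    · exact hok.ne (sub_eq_zero.1 h3)
  have hmain := hall MM hMM1 u' a' hu'S hu'dom ha'ne ha' _ _ hef heH _ _ hxx hne'
  have hcD1 : (1 : ℝ) ≤ P.c * DD := one_le_mul_of_one_le_of_one_le hc1 hDD1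
  have hcD0 : (0 : ℝ) < P.c * DD := by linarith
  have hmaxeq : max (|(((P.c * DD) ^ q * P.x : ℤ) : ℝ)| ^ p)
      (|(((P.c * DD) ^ p * P.y : ℤ) : ℝ)| ^ q) = (P.c * DD : ℝ) ^ (p * q) * Z := by
    rw [hZ, mul_max_of_nonneg _ _ (by positivity)]
    have e1 : |(((P.c * DD) ^ q * P.x : ℤ) : ℝ)| ^ p =
        (P.c * DD : ℝ) ^ (p * q) * |(P.x : ℝ)| ^ p := by
      push_cast
      rw [abs_mul, mul_pow (|((P.c : ℝ) * DD) ^ q|),
        abs_of_pos (show (0 : ℝ) < ((P.c : ℝ) * DD) ^ q by positivity), ← pow_mul, mul_comm q p]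
    have e2 : |(((P.c * DD) ^ p * P.y : ℤ) : ℝ)| ^ q =
        (P.c * DD : ℝ) ^ (p * q) * |(P.y : ℝ)| ^ q := by
      push_cast
      rw [abs_mul, mul_pow (|((P.c : ℝ) * DD) ^ p|),
        abs_of_pos (show (0 : ℝ) < ((P.c : ℝ) * DD) ^ p by positivity), ← pow_mul]
    rw [e1, e2]
  have hdiffeq : |(((P.c * DD) ^ p * P.y : ℤ) : ℝ) ^ q - (((P.c * DD) ^ q * P.x : ℤ) : ℝ) ^ p| =
      (P.c * DD : ℝ) ^ (p * q) * Δ := by
    have h1 : (((P.c * DD) ^ p * P.y : ℤ) : ℝ) ^ q - (((P.c * DD) ^ q * P.x : ℤ) : ℝ) ^ p =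
        (P.c * DD : ℝ) ^ (p * q) * ((P.y : ℝ) ^ q - (P.x : ℝ) ^ p) := by
      have h2 := congrArg (fun n : ℤ => (n : ℝ)) (hpow P.x P.y)
      push_cast at h2
      push_cast
      exact h2
    rw [h1, abs_mul, abs_of_pos (by positivity), hΔ]
  rw [hmaxeq, hdiffeq] at hmain
  rw [← hZ, ← hΔ]
  have hΔ0 : 0 < Δ := by linarith
  have hs : 0 < 1 - 1 / (p : ℝ) - 1 / (q : ℝ) - ε / 2 := by
    rw [hθ] at hθ0
    linarith
  have h1 : Z ^ (1 - 1 / (p : ℝ) - 1 / (q : ℝ) - ε / 2) ≤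
      (K * MM) ^ K * ((P.c * DD : ℝ) ^ (p * q) * Δ) := by
    refine le_trans ?_ hmain
    refine Real.rpow_le_rpow hZ0.le ?_ hs.le
    have h2 : (1 : ℝ) ≤ (P.c * DD : ℝ) ^ (p * q) := one_le_pow₀ hcD1
    nlinarith
  have h2 : Z ^ θ = Z ^ (1 - 1 / (p : ℝ) - 1 / (q : ℝ) - ε / 2) * Z ^ (-(ε / 2)) := by
    rw [← Real.rpow_add hZ0]
    congr 1
    rw [hθ]
    ring
  have hKM : 0 < K * MM := by positivity
  have h3 : (K * MM) ^ K * (P.c * DD : ℝ) ^ (p * q) * Z ^ (-(ε / 2)) ≤ Cb := by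
    have hKH : 0 < K * ((H : ℝ) ^ q * B1) := by positivity
    have e1 : (K * MM) ^ K = (K * ((H : ℝ) ^ q * B1)) ^ K *
        Real.exp (K * q * Real.log DD) := by
      have h5 : K * MM = (K * ((H : ℝ) ^ q * B1)) * (DD : ℝ) ^ q := by rw [hMM]; ring
      rw [h5, Real.mul_rpow hKH.le (by positivity)]
      congr 1
      rw [Real.rpow_def_of_pos (by positivity), Real.log_pow]
      congr 1
      ring
    have e2 : (P.c * DD : ℝ) ^ (p * q) ≤ (H : ℝ) ^ (p * q) *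
        Real.exp ((p * q : ℕ) * Real.log DD) := by
      rw [mul_pow, Real.exp_nat_mul, Real.exp_log hDDpos]
      exact mul_le_mul_of_nonneg_right (pow_le_pow_left₀ (by linarith) hcH _) (by positivity)
    have e3 : Z ^ (-(ε / 2)) = Real.exp (Real.log Z * (-(ε / 2))) :=
      Real.rpow_def_of_pos hZ0 _
    calc (K * MM) ^ K * (P.c * DD : ℝ) ^ (p * q) * Z ^ (-(ε / 2))
        ≤ ((K * ((H : ℝ) ^ q * B1)) ^ K * Real.exp (K * q * Real.log DD)) * ((H : ℝ) ^ (p * q) *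
          Real.exp ((p * q : ℕ) * Real.log DD)) * Real.exp (Real.log Z * (-(ε / 2))) := by
          rw [e1, e3]
          refine mul_le_mul_of_nonneg_right ?_ (Real.exp_pos _).le
          exact mul_le_mul_of_nonneg_left e2 (by positivity)
      _ = (K * ((H : ℝ) ^ q * B1)) ^ K * (H : ℝ) ^ (p * q) *
          (Real.exp (K * q * Real.log DD) * Real.exp ((p * q : ℕ) * Real.log DD) *
            Real.exp (Real.log Z * (-(ε / 2)))) := by ring
      _ = (K * ((H : ℝ) ^ q * B1)) ^ K * (H : ℝ) ^ (p * q) *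
          Real.exp (R * Real.log DD - ε / 2 * Real.log Z) := by
          rw [← Real.exp_add, ← Real.exp_add]
          congr 2
          rw [hR]
          ring
      _ ≤ Cb := by
          rw [hCb]
          refine mul_le_mul_of_nonneg_left (Real.exp_le_exp.2 ?_) (by positivity)
          linarith
  calc Z ^ θ = Z ^ (1 - 1 / (p : ℝ) - 1 / (q : ℝ) - ε / 2) * Z ^ (-(ε / 2)) := h2
    _ ≤ ((K * MM) ^ K * ((P.c * DD : ℝ) ^ (p * q) * Δ)) * Z ^ (-(ε / 2)) :=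
        mul_le_mul_of_nonneg_right h1 (by positivity)
    _ = ((K * MM) ^ K * (P.c * DD : ℝ) ^ (p * q) * Z ^ (-(ε / 2))) * Δ := by ring
    _ ≤ Cb * Δ := mul_le_mul_of_nonneg_right h3 hΔ0.le
    _ ≤ _ := mul_le_mul_of_nonneg_right (le_max_right _ _) hΔ0.le

theorem core {p q H : ℕ} (hp : 1 ≤ p) (hq : 1 ≤ q) {S : Finset ℕ} {r : ℕ}
    {b : Fin r → ℕ} (hb : ∀ i, 2 ≤ b i) (z : ℕ) {B : ℤ} (hB : 0 ≤ B)
    {η ε : ℝ} (hη : 0 < η) (hε : 0 < ε) :
    ∃ C : ℝ, ∀ P : Dt r, (∀ i, LZWd (b i) z B (1 * (1 + Real.log P.u)) (P.w i)) →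
      Ok p q H S b B η P →
      (max (|(P.x : ℝ)| ^ p) (|(P.y : ℝ)| ^ q)) ^ (1 - 1 / (p : ℝ) - 1 / (q : ℝ) - ε) ≤
        C * |(P.y : ℝ) ^ q - (P.x : ℝ) ^ p| := by
  classical
  obtain ⟨S', hS'⟩ : ∃ S' : Finset ℕ, S' = S.filter Nat.Prime ∪
    Finset.univ.biUnion fun i => (b i).primeFactors := ⟨_, rfl⟩
  have hprime : ∀ p ∈ S', p.Prime := by
    intro p hp
    rw [hS', Finset.mem_union, Finset.mem_filter, Finset.mem_biUnion] at hp
    rcases hp with h | ⟨i, _, h⟩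
    · exact h.2
    · exact Nat.prime_of_mem_primeFactors h
  have hbS : ∀ i, Smooth S' (b i) := fun i => ⟨by have := hb i; omega, fun p hp => by
    rw [hS', Finset.mem_union, Finset.mem_biUnion]
    exact Or.inr ⟨i, Finset.mem_univ _, hp⟩⟩
  have hsm : ∀ n, Smooth S n → Smooth S' n := fun n hn => ⟨hn.1, fun p hp => by
    rw [hS', Finset.mem_union, Finset.mem_filter]
    exact Or.inl ⟨hn.2 hp, Nat.prime_of_mem_primeFactors hp⟩⟩
  obtain ⟨C, hC⟩ := transferQ b hb z B hB 1 zero_le_one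
    (fun (C : ℝ) (P : Dt r) => Ok p q H S' b B η P →
      (max (|(P.x : ℝ)| ^ p) (|(P.y : ℝ)| ^ q)) ^ (1 - 1 / (p : ℝ) - 1 / (q : ℝ) - ε) ≤
        C * |(P.y : ℝ) ^ q - (P.x : ℝ) ^ p|)
    (fun C C' P hC h h1 => (h h1).trans (mul_le_mul_of_nonneg_right hC (abs_nonneg _)))
    (fun P => Real.log P.u) (fun P => Real.log_natCast_nonneg _) (fun P => P.w)
    (step hp hq hprime hb hbS hB hη hε)
  exact ⟨C, fun P hP hok => hC P hP ⟨hok.ne, hok.c1, hok.cH, hok.h0, hok.hH, hsm _ hok.su,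
    fun i => hsm _ (hok.sg i), hok.wB, hok.dom, hok.eq⟩⟩

end Pool.Agent.K3h2.HL
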