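import Pool.Agent.R343.LT4

/-!
# Sums of few powers of `b` which are small: the large and the negative exponents can be removed
-/

set_option autoImplicit false

namespace Pool.Agent.K3h2.HL

open Finset Pool.Agent.R343.LP Pool.Agent.R343.LI Pool.Agent.R343.LT

/-- a window of exponents which is avoided by `T` integers -/
lemma window (T c n : ℕ) (l : Fin T → ℤ) : ∃ i : ℕ, i ≤ T ∧
    ∀ j, ¬ ((n + i * c : ℕ) ≤ l j ∧ l j < (n + (i + 1) * c : ℕ)) := by
  by_contra hcon
  push Not at hcon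
  have h1 : ∀ i : Fin (T + 1), ∃ j, ((n + i * c : ℕ) ≤ l j ∧ l j < (n + (i + 1) * c : ℕ)) :=
    fun i => hcon i (by have := i.isLt; omega)
  choose f hf using h1
  have hinj : Function.Injective f := by
    intro i i' h
    have h2 := hf i
    have h3 := hf i'
    rw [h] at h2
    by_contra hne
    have hne' : (i : ℕ) ≠ i' := fun h => hne (Fin.ext h)
    rcases lt_or_gt_of_ne hne' with h4 | h4
    · have h5 : ((i : ℕ) + 1) * c ≤ i' * c := Nat.mul_le_mul_right c h4
      have h6 := h2.2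
      have h7 := h3.1
      have h8 : ((n + (i + 1) * c : ℕ) : ℤ) ≤ ((n + i' * c : ℕ) : ℤ) := by
        exact_mod_cast Nat.add_le_add_left h5 n
      linarith
    · have h5 : ((i' : ℕ) + 1) * c ≤ i * c := Nat.mul_le_mul_right c h4
      have h6 := h3.2
      have h7 := h2.1
      have h8 : ((n + (i' + 1) * c : ℕ) : ℤ) ≤ ((n + i * c : ℕ) : ℤ) := by
        exact_mod_cast Nat.add_le_add_left h5 n
      linarith
  have := Fintype.card_le_of_injective f hinj
  simp at this

theorem norm_sp {b : ℕ} (hb : 2 ≤ b) (T : ℕ) (B : ℤ) (hB : 0 ≤ B) :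
    ∃ c : ℕ, ∀ (x : ℤ) (n : ℕ), SpQ b T B x → |x| ≤ (b : ℤ) ^ n →
      ∃ (l : Fin (T + 1) → ℕ) (v : Fin (T + 1) → ℤ), (∀ j, |v j| ≤ (T + 1) * (B + 1)) ∧
        (∀ j, l j ≤ n + c) ∧ x = ∑ j, v j * (b : ℤ) ^ l j := by
  obtain ⟨c0, hc0⟩ : ∃ c0 : ℕ, c0 = (T * B + 1).toNat := ⟨_, rfl⟩
  refine ⟨(T + 1) * c0, ?_⟩
  rintro x n ⟨l, v, hv, hx⟩ hxn
  obtain ⟨i, hi, hwin⟩ := window T c0 n l
  obtain ⟨m0, hm0⟩ : ∃ m0 : ℕ, m0 = n + i * c0 := ⟨_, rfl⟩
  obtain ⟨m, hm⟩ : ∃ m : ℕ, m = n + (i + 1) * c0 := ⟨_, rfl⟩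
  rw [← hm0, ← hm] at hwin
  have hmm : m = m0 + c0 := by rw [hm, hm0]; ring
  have hmle : m ≤ n + (T + 1) * c0 := by
    rw [hm]
    exact Nat.add_le_add_left (Nat.mul_le_mul_right _ (by omega)) n
  have hnm0 : n ≤ m0 := by rw [hm0]; omega
  have hb0 : (0 : ℚ) < b := by
    have : 0 < b := by omega
    exact_mod_cast this
  have hb1 : (1 : ℚ) ≤ b := by
    have : 1 ≤ b := by omega
    exact_mod_cast this
  have hTB : (0 : ℤ) ≤ T * B := by positivity
  -- `T B + 1 < b ^ c0`
  have hlarge : ((T * B + 1 : ℤ) : ℚ) < (b : ℚ) ^ c0 := by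
    have h1 : (T * B + 1 : ℤ) = (c0 : ℤ) := by
      rw [hc0, Int.toNat_of_nonneg (by positivity)]
    rw [h1]
    have h2 : c0 < b ^ c0 := Nat.lt_pow_self (by omega)
    exact_mod_cast h2
  -- the three parts
  let Hi : Finset (Fin T) := univ.filter fun j => (m : ℤ) ≤ l j
  let Mi : Finset (Fin T) := univ.filter fun j => 0 ≤ l j ∧ l j < m
  let Lo : Finset (Fin T) := univ.filter fun j => l j < 0
  let t : Fin T → ℚ := fun j => (v j : ℚ) * (b : ℚ) ^ l j
  have hvB : ∀ j, |(v j : ℚ)| ≤ B := fun j => by exact_mod_cast hv j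
  have hBQ : (0 : ℚ) ≤ B := by exact_mod_cast hB
  have hsplit : (x : ℚ) = ∑ j ∈ Hi, t j + ∑ j ∈ univ.filter (fun j => ¬ (m : ℤ) ≤ l j), t j := by
    rw [hx, Finset.sum_filter_add_sum_filter_not]
  have hrest : ∑ j ∈ univ.filter (fun j => ¬ (m : ℤ) ≤ l j), t j =
      ∑ j ∈ Mi, t j + ∑ j ∈ Lo, t j := by
    rw [← Finset.sum_union]
    · apply Finset.sum_congr
      · ext j
        simp only [mem_filter, mem_univ, true_and, mem_union, Mi, Lo]
        constructor
        · intro h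
          by_cases h0 : l j < 0
          · exact Or.inr h0
          · exact Or.inl ⟨by omega, by omega⟩
        · rintro (h | h)
          · omega
          · have : (0 : ℤ) ≤ m := Int.natCast_nonneg m
            omega
      · intros; rfl
    · rw [Finset.disjoint_left]
      intro j h1 h2
      simp only [mem_filter, mem_univ, true_and, Mi, Lo] at h1 h2
      omega
  -- the high part is zero
  have hHi : ∑ j ∈ Hi, t j = 0 := by
    obtain ⟨K, hK⟩ : ∃ K : ℤ, K = ∑ j ∈ Hi, v j * (b : ℤ) ^ (l j - m).toNat := ⟨_, rfl⟩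
    have h1 : ∑ j ∈ Hi, t j = (b : ℚ) ^ m * K := by
      rw [hK]
      push_cast
      rw [Finset.mul_sum]
      refine Finset.sum_congr rfl fun j hj => ?_
      simp only [mem_filter, mem_univ, true_and, Hi] at hj
      have h2 : (b : ℚ) ^ l j = (b : ℚ) ^ m * (b : ℚ) ^ (l j - m).toNat := by
        rw [← zpow_natCast (b : ℚ) m, ← zpow_natCast (b : ℚ) ((l j - m).toNat), ← zpow_add₀ hb0.ne']
        congr 1
        rw [Int.toNat_of_nonneg (by omega)]
        ring
      show (v j : ℚ) * (b : ℚ) ^ l j = _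
      rw [h2]
      ring
    have h2 : |∑ j ∈ univ.filter (fun j => ¬ (m : ℤ) ≤ l j), t j| ≤ T * B * (b : ℚ) ^ m0 := by
      refine (Finset.abs_sum_le_sum_abs _ _).trans ?_
      have h3 : ∀ j ∈ univ.filter (fun j => ¬ (m : ℤ) ≤ l j), |t j| ≤ B * (b : ℚ) ^ m0 := by
        intro j hj
        simp only [mem_filter, mem_univ, true_and] at hj
        have h4 := hwin j
        have h5 : l j < m0 := by
          by_contra h6
          exact h4 ⟨by omega, by omega⟩
        show |(v j : ℚ) * (b : ℚ) ^ l j| ≤ _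
        rw [abs_mul, abs_of_pos (zpow_pos hb0 _)]
        refine mul_le_mul (hvB j) ?_ (zpow_pos hb0 _).le hBQ
        rw [← zpow_natCast (b : ℚ) m0]
        exact zpow_le_zpow_right₀ hb1 h5.le
      refine (Finset.sum_le_card_nsmul _ _ _ h3).trans ?_
      rw [nsmul_eq_mul]
      have h6 : ((univ.filter (fun j : Fin T => ¬ (m : ℤ) ≤ l j)).card : ℚ) ≤ T := by
        have := Finset.card_filter_le (univ : Finset (Fin T)) (fun j => ¬ (m : ℤ) ≤ l j)
        rw [Finset.card_univ, Fintype.card_fin] at this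
        exact_mod_cast this
      calc _ ≤ (T : ℚ) * (B * (b : ℚ) ^ m0) := mul_le_mul_of_nonneg_right h6 (by positivity)
        _ = _ := by ring
    have h3 : |(x : ℚ)| ≤ (b : ℚ) ^ m0 := by
      have h4 : ((|x| : ℤ) : ℚ) ≤ (((b : ℤ) ^ n : ℤ) : ℚ) := by exact_mod_cast hxn
      push_cast at h4
      exact h4.trans (pow_le_pow_right₀ hb1 hnm0)
    have h4 : |∑ j ∈ Hi, t j| < (b : ℚ) ^ m := by
      have h5 : ∑ j ∈ Hi, t j = x - ∑ j ∈ univ.filter (fun j => ¬ (m : ℤ) ≤ l j), t j := by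
        rw [hsplit]
        ring
      calc |∑ j ∈ Hi, t j| ≤ |(x : ℚ)| + |∑ j ∈ univ.filter (fun j => ¬ (m : ℤ) ≤ l j), t j| := by
            rw [h5]
            exact abs_sub _ _
        _ ≤ (b : ℚ) ^ m0 + T * B * (b : ℚ) ^ m0 := add_le_add h3 h2
        _ = ((T * B + 1 : ℤ) : ℚ) * (b : ℚ) ^ m0 := by push_cast; ring
        _ < (b : ℚ) ^ c0 * (b : ℚ) ^ m0 := mul_lt_mul_of_pos_right hlarge (by positivity)
        _ = (b : ℚ) ^ m := by rw [hmm, pow_add]; ring
    rw [h1, abs_mul, abs_of_pos (pow_pos hb0 m)] at h4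
    have h5 : |(K : ℚ)| < 1 := by
      by_contra h6
      push Not at h6
      have := mul_le_mul_of_nonneg_left h6 (pow_pos hb0 m).le
      linarith
    have h6 : |K| < 1 := by exact_mod_cast h5
    have h7 : K = 0 := Int.abs_lt_one_iff.1 h6
    rw [h1, h7]
    simp
  -- the middle part
  obtain ⟨s, hs⟩ : ∃ s : ℤ, s = x - ∑ j ∈ Mi, v j * (b : ℤ) ^ (l j).toNat := ⟨_, rfl⟩
  have hMi : ∑ j ∈ Mi, t j = ((∑ j ∈ Mi, v j * (b : ℤ) ^ (l j).toNat : ℤ) : ℚ) := by
    push_cast
    refine Finset.sum_congr rfl fun j hj => ?_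
    simp only [mem_filter, mem_univ, true_and, Mi] at hj
    show (v j : ℚ) * (b : ℚ) ^ l j = _
    congr 1
    rw [← zpow_natCast, Int.toNat_of_nonneg hj.1]
  have hsLo : (s : ℚ) = ∑ j ∈ Lo, t j := by
    rw [hs]
    have h1 := hsplit
    rw [hHi, hrest, hMi] at h1
    push_cast at h1 ⊢
    linarith
  have hsB : |s| ≤ T * B := by
    have h1 : |(s : ℚ)| ≤ T * B := by
      rw [hsLo]
      refine (Finset.abs_sum_le_sum_abs _ _).trans ?_
      have h3 : ∀ j ∈ Lo, |t j| ≤ (B : ℚ) := by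
        intro j hj
        simp only [mem_filter, mem_univ, true_and, Lo] at hj
        show |(v j : ℚ) * (b : ℚ) ^ l j| ≤ _
        rw [abs_mul, abs_of_pos (zpow_pos hb0 _)]
        have h4 : (b : ℚ) ^ l j ≤ 1 := zpow_le_one_of_nonpos₀ hb1 hj.le
        calc |(v j : ℚ)| * (b : ℚ) ^ l j ≤ B * 1 :=
              mul_le_mul (hvB j) h4 (zpow_pos hb0 _).le hBQ
          _ = B := mul_one _
      refine (Finset.sum_le_card_nsmul _ _ _ h3).trans ?_
      rw [nsmul_eq_mul]
      have h6 : (Lo.card : ℚ) ≤ T := by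
        have := Finset.card_filter_le (univ : Finset (Fin T)) (fun j => l j < 0)
        rw [Finset.card_univ, Fintype.card_fin] at this
        exact_mod_cast this
      exact mul_le_mul_of_nonneg_right h6 hBQ
    exact_mod_cast h1
  refine ⟨Fin.cons 0 fun j => if 0 ≤ l j ∧ l j < m then (l j).toNat else 0,
    Fin.cons s fun j => if 0 ≤ l j ∧ l j < m then v j else 0, ?_, ?_, ?_⟩
  · intro j
    have h0 : (0 : ℤ) ≤ (T + 1) * (B + 1) := by positivity
    refine Fin.cases ?_ (fun j => ?_) j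
    · rw [Fin.cons_zero]
      have : (T : ℤ) * B ≤ (T + 1) * (B + 1) := by
        have h3 : (0 : ℤ) ≤ T := Int.natCast_nonneg T
        nlinarith
      linarith
    · rw [Fin.cons_succ]
      split_ifs
      · have h3 : (0 : ℤ) ≤ T := Int.natCast_nonneg T
        have := hv j
        nlinarith
      · simpa using h0
  · intro j
    refine Fin.cases ?_ (fun j => ?_) j
    · rw [Fin.cons_zero]
      exact Nat.zero_le _
    · rw [Fin.cons_succ]
      split_ifs with h
      · omega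
      · exact Nat.zero_le _
  · rw [Fin.sum_univ_succ]
    simp only [Fin.cons_zero, Fin.cons_succ, pow_zero, mul_one]
    have h1 : ∑ j : Fin T, (if 0 ≤ l j ∧ l j < m then v j else 0) *
        (b : ℤ) ^ (if 0 ≤ l j ∧ l j < m then (l j).toNat else 0) =
        ∑ j ∈ Mi, v j * (b : ℤ) ^ (l j).toNat := by
      rw [Finset.sum_filter]
      refine Finset.sum_congr rfl fun j _ => ?_
      split_ifs
      · rfl
      · simp
    rw [h1, hs]
    ring

end Pool.Agent.K3h2.HL
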